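import Pool.Agent.H39.HW.SStm

/-!
Part sPAT of project HW, scheme side: the weights of the parts on the pattern.
-/

set_option autoImplicit false
open Classical Finset

namespace Pool.Agent.H60.HW

open Pool.Agent.H39.HW Pool.Agent.H39.HW.Sc

/-- the parts of type `τ` -/
noncomputable def TT (h : ℕ) (τ : Bool) : Finset ℕ :=
  (range (2 * h)).filter fun P => decide (P < h) = τ

/-- the parts reserved at position `i` -/
def ZZ (h i : ℕ) : Finset ℕ := if i < 4 * h ^ 2 then {i / (2 * h), i % (2 * h)} else {i - 4 * h ^ 2}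

theorem card_TT (h : ℕ) (τ : Bool) : (TT h τ).card = h := by
  cases τ
  · have : TT h false = Finset.Ico h (2 * h) := by
      ext P
      simp only [TT, mem_filter, mem_range, decide_eq_false_iff_not, Finset.mem_Ico]
      omega
    rw [this, Nat.card_Ico]
    omega
  · have : TT h true = range h := by
      ext P
      simp only [TT, mem_filter, mem_range, decide_eq_true_eq]
      omega
    rw [this, card_range]

theorem resv_iff (x : Prm) (P i : ℕ) : x.resv P i ↔ P ∈ ZZ x.h i := by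
  unfold Prm.resv ZZ
  split_ifs with h
  · simp only [mem_insert, mem_singleton, h, true_and]
    constructor
    · rintro (h1 | h1)
      · rcases h1 with h1 | h1
        · exact Or.inl h1.symm
        · exact Or.inr h1.symm
      · omega
    · rintro (h1 | h1)
      · exact Or.inl (Or.inl h1.symm)
      · exact Or.inl (Or.inr h1.symm)
  · simp only [mem_singleton, h, false_and, false_or]
    omega

theorem card_ZZ (h i : ℕ) : (ZZ h i).card ≤ 2 := by
  unfold ZZ
  split_ifs
  · exact card_le_two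
  · rw [card_singleton]
    omega

theorem nn_eq (x : Prm) (τ : Bool) (i : ℕ) : x.nn τ i = (TT x.h τ \ ZZ x.h i).card := by
  unfold Prm.nn TT
  congr 1
  ext P
  simp only [mem_filter, mem_sdiff, mem_range, resv_iff, Prm.tp]
  tauto

theorem nn_ge (x : Prm) (τ : Bool) (i : ℕ) : x.h ≤ x.nn τ i + 2 := by
  rw [nn_eq]
  have h1 := card_TT x.h τ
  have h2 := card_ZZ x.h i
  have h3 := Finset.le_card_sdiff (ZZ x.h i) (TT x.h τ)
  omega

theorem nn_le (x : Prm) (τ : Bool) (i : ℕ) : x.nn τ i ≤ x.h := by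
  rw [nn_eq]
  exact (card_le_card sdiff_subset).trans_eq (card_TT x.h τ)

theorem sdiff_single (T : Finset ℕ) (j : ℕ) (h : j ∉ T) : T \ {j} = T := by
  rw [Finset.sdiff_singleton_eq_erase, Finset.erase_eq_of_notMem h]

theorem wt_eq (x : Prm) (P i : ℕ) :
    x.wt P i = if P ∈ ZZ x.h i then 0 else (x.h : ℝ) / (TT x.h (x.tp P) \ ZZ x.h i).card := by
  unfold Prm.wt
  rw [nn_eq]
  by_cases h : P ∈ ZZ x.h i
  · rw [if_pos h, if_pos ((resv_iff x P i).mpr h)]
  · rw [if_neg h, if_neg (fun h' => h ((resv_iff x P i).mp h'))]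

theorem mem_TT (h P : ℕ) (hP : P < 2 * h) (τ : Bool) : P ∈ TT h τ ↔ decide (P < h) = τ := by
  simp only [TT, mem_filter, mem_range, hP, true_and]

theorem sum_one (T : Finset ℕ) (P : ℕ) (hP : P ∈ T) (f : ℕ → ℝ) (c : ℝ) (h0 : f P = 0)
    (hf : ∀ j ∈ T, j ≠ P → f j = c) : ∑ j ∈ T, f j = ((T.card : ℝ) - 1) * c := by
  rw [← Finset.add_sum_erase _ _ hP, h0, zero_add]
  rw [Finset.sum_congr rfl (fun j hj => hf j (Finset.mem_of_mem_erase hj) (Finset.ne_of_mem_erase hj))]
  rw [Finset.sum_const, Finset.card_erase_of_mem hP, nsmul_eq_mul]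
  congr 1
  have : 1 ≤ T.card := Finset.card_pos.mpr ⟨P, hP⟩
  rw [Nat.cast_sub this, Nat.cast_one]

theorem sum_two (T : Finset ℕ) (P A : ℕ) (hP : P ∈ T) (hA : A ∈ T) (hAP : A ≠ P) (f : ℕ → ℝ)
    (c c1 : ℝ) (h0 : f P = 0) (h1 : f A = c1)
    (hf : ∀ j ∈ T, j ≠ P → j ≠ A → f j = c) : ∑ j ∈ T, f j = c1 + ((T.card : ℝ) - 2) * c := by
  have hA' : A ∈ T.erase P := Finset.mem_erase.mpr ⟨hAP, hA⟩
  rw [← Finset.add_sum_erase _ _ hP, h0, zero_add, ← Finset.add_sum_erase _ _ hA', h1]
  rw [Finset.sum_congr rfl (fun j hj => hf j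
    (Finset.mem_of_mem_erase (Finset.mem_of_mem_erase hj))
    (Finset.ne_of_mem_erase (Finset.mem_of_mem_erase hj)) (Finset.ne_of_mem_erase hj))]
  rw [Finset.sum_const, Finset.card_erase_of_mem hA', Finset.card_erase_of_mem hP, nsmul_eq_mul]
  congr 2
  have h2 : 1 ≤ (T.erase P).card := Finset.card_pos.mpr ⟨A, hA'⟩
  rw [Finset.card_erase_of_mem hP] at h2
  have : T.card - 1 - 1 = T.card - 2 := by omega
  rw [this, Nat.cast_sub (by omega)]
  norm_num

theorem sum_split (h : ℕ) (τ : Bool) (f : ℕ → ℝ) :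
    ∑ j ∈ range (2 * h), f j = ∑ j ∈ TT h τ, f j + ∑ j ∈ TT h (!τ), f j := by
  have h1 : ∑ j ∈ TT h (!τ), f j = ∑ j ∈ (range (2 * h)).filter fun P => ¬ decide (P < h) = τ, f j := by
    refine Finset.sum_congr ?_ fun _ _ => rfl
    unfold TT
    ext P
    simp only [mem_filter]
    cases τ <;> simp
  rw [h1]
  unfold TT
  rw [Finset.sum_filter_add_sum_filter_not]

theorem sum_mul_range (n m : ℕ) (f : ℕ → ℝ) :
    ∑ i ∈ range (m * n), f i = ∑ a ∈ range n, ∑ b ∈ range m, f (m * a + b) := by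
  induction n with
  | zero => simp
  | succ n ih =>
    rw [Nat.mul_succ, Finset.sum_range_add, ih, Finset.sum_range_succ]

/-- a row of the pattern without the type `τ` -/
theorem row_other (h P : ℕ) (hh : 3 ≤ h) (hP : P < 2 * h) (τ : Bool) (hτ : P ∈ TT h τ) :
    ∑ j ∈ range (2 * h), (if P = j then (0 : ℝ) else (h : ℝ) / (TT h τ \ {j}).card) = 2 * h := by
  have hh' : (3 : ℝ) ≤ (h : ℝ) := by exact_mod_cast hh
  rw [sum_split h τ]
  have e1 : ∑ j ∈ TT h τ, (if P = j then (0 : ℝ) else (h : ℝ) / (TT h τ \ {j}).card) =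
      (((TT h τ).card : ℝ) - 1) * ((h : ℝ) / ((h : ℝ) - 1)) := by
    refine sum_one _ P hτ _ _ (by rw [if_pos rfl]) ?_
    intro j hj hjP
    rw [if_neg (fun h' => hjP h'.symm), Finset.card_sdiff_of_subset (Finset.singleton_subset_iff.mpr hj),
      card_singleton, card_TT, Nat.cast_sub (by omega), Nat.cast_one]
  have e2 : ∑ j ∈ TT h (!τ), (if P = j then (0 : ℝ) else (h : ℝ) / (TT h τ \ {j}).card) = h := by
    have h2 : ∀ j ∈ TT h (!τ), (if P = j then (0 : ℝ) else (h : ℝ) / (TT h τ \ {j}).card) = 1 := by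
      intro j hj
      have hj2 : j ∉ TT h τ := by
        intro hj'
        simp only [TT, mem_filter] at hj hj'
        rw [hj'.2] at hj
        cases τ <;> simp at hj
      rw [if_neg (fun h' : P = j => hj2 (h' ▸ hτ)), sdiff_single _ _ hj2, card_TT,
        div_self (by linarith)]
    rw [Finset.sum_congr rfl h2, Finset.sum_const, card_TT, nsmul_eq_mul, mul_one]
  rw [e1, e2, card_TT, mul_div_cancel₀]
  · ring
  · have : (0 : ℝ) < (h : ℝ) - 1 := by linarith
    exact this.ne'

/-- a row of the pattern of the type `τ` -/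
theorem row_same (h P A : ℕ) (hh : 3 ≤ h) (τ : Bool) (hτ : P ∈ TT h τ)
    (hA : A ∈ TT h τ) (hAP : A ≠ P) :
    ∑ j ∈ range (2 * h), (if P = j then (0 : ℝ) else (h : ℝ) / (TT h τ \ {A, j}).card) =
      2 * h ^ 2 / (h - 1) := by
  have hh' : (3 : ℝ) ≤ (h : ℝ) := by exact_mod_cast hh
  rw [sum_split h τ]
  have e1 : ∑ j ∈ TT h τ, (if P = j then (0 : ℝ) else (h : ℝ) / (TT h τ \ {A, j}).card) =
      (h : ℝ) / ((h : ℝ) - 1) + (((TT h τ).card : ℝ) - 2) * ((h : ℝ) / ((h : ℝ) - 2)) := by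
    refine sum_two _ P A hτ hA hAP _ _ _ (by rw [if_pos rfl]) ?_ ?_
    · rw [if_neg (fun h' => hAP h'.symm), Finset.pair_eq_singleton,
        Finset.card_sdiff_of_subset (Finset.singleton_subset_iff.mpr hA),
        card_singleton, card_TT, Nat.cast_sub (by omega), Nat.cast_one]
    · intro j hj hjP hjA
      have hsub : ({A, j} : Finset ℕ) ⊆ TT h τ := by
        intro z hz
        rw [mem_insert, mem_singleton] at hz
        rcases hz with rfl | rfl
        · exact hA
        · exact hj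
      rw [if_neg (fun h' => hjP h'.symm), Finset.card_sdiff_of_subset hsub,
        Finset.card_pair (fun h' => hjA h'.symm), card_TT, Nat.cast_sub (by omega)]
      norm_num
  have e2 : ∑ j ∈ TT h (!τ), (if P = j then (0 : ℝ) else (h : ℝ) / (TT h τ \ {A, j}).card) =
      h * ((h : ℝ) / ((h : ℝ) - 1)) := by
    have h2 : ∀ j ∈ TT h (!τ), (if P = j then (0 : ℝ) else (h : ℝ) / (TT h τ \ {A, j}).card) =
        (h : ℝ) / ((h : ℝ) - 1) := by
      intro j hj
      have hj2 : j ∉ TT h τ := by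
        intro hj'
        simp only [TT, mem_filter] at hj hj'
        rw [hj'.2] at hj
        cases τ <;> simp at hj
      have h3 : TT h τ \ {A, j} = TT h τ \ {A} := by
        ext z
        simp only [mem_sdiff, mem_insert, mem_singleton, not_or]
        constructor
        · rintro ⟨h4, h5, -⟩
          exact ⟨h4, h5⟩
        · rintro ⟨h4, h5⟩
          exact ⟨h4, h5, fun h6 => hj2 (h6 ▸ h4)⟩
      rw [if_neg (fun h' : P = j => hj2 (h' ▸ hτ)), h3,
        Finset.card_sdiff_of_subset (Finset.singleton_subset_iff.mpr hA),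
        card_singleton, card_TT, Nat.cast_sub (by omega), Nat.cast_one]
    rw [Finset.sum_congr rfl h2, Finset.sum_const, card_TT, nsmul_eq_mul]
  rw [e1, e2, card_TT]
  have h1 : (h : ℝ) - 1 ≠ 0 := by
    have : (0 : ℝ) < (h : ℝ) - 1 := by linarith
    exact this.ne'
  have h2 : (h : ℝ) - 2 ≠ 0 := by
    have : (0 : ℝ) < (h : ℝ) - 2 := by linarith
    exact this.ne'
  field_simp
  ring

theorem h_large (x : Prm) (hx : Par x) : 10000 ≤ x.h := by
  have h1 := hx.h1
  have h2 := hx.e1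
  have h3 := hx.e0
  have h4 : (0 : ℝ) ≤ (x.h : ℝ) := Nat.cast_nonneg _
  have h5 : (1000 : ℝ) ≤ 1 / 10 * x.h := h1.trans (mul_le_mul_of_nonneg_right h2 h4)
  have h6 : (10000 : ℝ) ≤ (x.h : ℝ) := by linarith
  exact_mod_cast h6

theorem t_PAT : S_PAT := by
  intro x hx P hP
  have hh := h_large x hx
  have hh' : (10000 : ℝ) ≤ (x.h : ℝ) := by exact_mod_cast hh
  have hPT : P ∈ TT x.h (x.tp P) := by
    rw [mem_TT x.h P hP]
    rfl
  -- positions after the square
  have hsecond : ∑ i ∈ Finset.Ico (4 * x.h ^ 2) (4 * x.h ^ 2 + 2 * x.h), x.wt P i = 2 * x.h := by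
    rw [Finset.sum_Ico_eq_sum_range]
    have e1 : 4 * x.h ^ 2 + 2 * x.h - 4 * x.h ^ 2 = 2 * x.h := by omega
    rw [e1, ← row_other x.h P (by omega) hP (x.tp P) hPT]
    refine Finset.sum_congr rfl fun j _ => ?_
    have h1 : ZZ x.h (4 * x.h ^ 2 + j) = {j} := by
      unfold ZZ
      rw [if_neg (by omega)]
      congr 1
      omega
    rw [wt_eq, h1]
    simp only [mem_singleton]
  have hfirst : ∑ i ∈ range (4 * x.h ^ 2), x.wt P i = 4 * (x.h : ℝ) ^ 2 := by
    have e1 : 4 * x.h ^ 2 = 2 * x.h * (2 * x.h) := by ring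
    rw [e1, sum_mul_range]
    have e2 : ∀ A ∈ range (2 * x.h), ∀ B ∈ range (2 * x.h), x.wt P (2 * x.h * A + B) =
        if P = A ∨ P = B then 0 else (x.h : ℝ) / (TT x.h (x.tp P) \ {A, B}).card := by
      intro A hA B hB
      rw [mem_range] at hA hB
      have h1 : ZZ x.h (2 * x.h * A + B) = {A, B} := by
        unfold ZZ
        have h2 : 2 * x.h * A + B < 4 * x.h ^ 2 := by
          rw [e1]
          calc 2 * x.h * A + B < 2 * x.h * A + 2 * x.h := by omega
            _ = 2 * x.h * (A + 1) := by ring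
            _ ≤ 2 * x.h * (2 * x.h) := Nat.mul_le_mul_left _ (by omega)
        rw [if_pos h2, Nat.mul_add_div (by omega), Nat.div_eq_of_lt hB, add_zero,
          Nat.mul_add_mod, Nat.mod_eq_of_lt hB]
      rw [wt_eq, h1]
      simp only [mem_insert, mem_singleton]
    rw [Finset.sum_congr rfl fun A hA => Finset.sum_congr rfl fun B hB => e2 A hA B hB]
    rw [sum_split x.h (x.tp P)]
    have e3 : ∑ A ∈ TT x.h (x.tp P), ∑ B ∈ range (2 * x.h),
        (if P = A ∨ P = B then 0 else (x.h : ℝ) / (TT x.h (x.tp P) \ {A, B}).card) =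
        (((TT x.h (x.tp P)).card : ℝ) - 1) * (2 * x.h ^ 2 / (x.h - 1)) := by
      refine sum_one _ P hPT _ _ ?_ ?_
      · exact Finset.sum_eq_zero fun B _ => by rw [if_pos (Or.inl rfl)]
      · intro A hA hAP
        rw [← row_same x.h P A (by omega) (x.tp P) hPT hA hAP]
        refine Finset.sum_congr rfl fun B _ => ?_
        have : P ≠ A := fun h' => hAP h'.symm
        simp only [this, false_or]
    have e4 : ∑ A ∈ TT x.h (!x.tp P), ∑ B ∈ range (2 * x.h),
        (if P = A ∨ P = B then 0 else (x.h : ℝ) / (TT x.h (x.tp P) \ {A, B}).card) =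
        x.h * (2 * x.h) := by
      have h2 : ∀ A ∈ TT x.h (!x.tp P), ∑ B ∈ range (2 * x.h),
          (if P = A ∨ P = B then 0 else (x.h : ℝ) / (TT x.h (x.tp P) \ {A, B}).card) =
          2 * x.h := by
        intro A hA
        have hA2 : A ∉ TT x.h (x.tp P) := by
          intro hA'
          simp only [TT, mem_filter] at hA hA'
          rw [hA'.2] at hA
          cases x.tp P <;> simp at hA
        rw [← row_other x.h P (by omega) hP (x.tp P) hPT]
        refine Finset.sum_congr rfl fun B _ => ?_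
        have h3 : TT x.h (x.tp P) \ {A, B} = TT x.h (x.tp P) \ {B} := by
          ext z
          simp only [mem_sdiff, mem_insert, mem_singleton, not_or]
          constructor
          · rintro ⟨h4, -, h5⟩
            exact ⟨h4, h5⟩
          · rintro ⟨h4, h5⟩
            exact ⟨h4, fun h6 => hA2 (h6 ▸ h4), h5⟩
        have : P ≠ A := fun h' => hA2 (h' ▸ hPT)
        simp only [this, false_or, h3]
      rw [Finset.sum_congr rfl h2, Finset.sum_const, card_TT, nsmul_eq_mul]
    rw [e3, e4, card_TT]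
    have h1 : (x.h : ℝ) - 1 ≠ 0 := by
      have : (0 : ℝ) < (x.h : ℝ) - 1 := by linarith
      exact this.ne'
    field_simp
    ring
  have hthird : ∑ i ∈ Finset.Ico (4 * x.h ^ 2 + 2 * x.h) x.L, x.wt P i =
      (x.L : ℝ) - (4 * (x.h : ℝ) ^ 2 + 2 * x.h) := by
    have h1 : ∀ i ∈ Finset.Ico (4 * x.h ^ 2 + 2 * x.h) x.L, x.wt P i = 1 := by
      intro i hi
      rw [Finset.mem_Ico] at hi
      have h2 : ZZ x.h i = {i - 4 * x.h ^ 2} := by
        unfold ZZ
        rw [if_neg (by omega)]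
      have h3 : ∀ τ, i - 4 * x.h ^ 2 ∉ TT x.h τ := by
        intro τ h4
        simp only [TT, mem_filter, mem_range] at h4
        omega
      rw [wt_eq, h2, if_neg (by rw [mem_singleton]; omega),
        sdiff_single _ _ (h3 _), card_TT, div_self (by linarith)]
    rw [Finset.sum_congr rfl h1, Finset.sum_const, Nat.card_Ico, nsmul_eq_mul, mul_one]
    have h2 : 4 * x.h ^ 2 + 2 * x.h ≤ x.L := by
      rw [hx.L1]
      nlinarith [Nat.zero_le (x.h ^ 2)]
    rw [Nat.cast_sub h2]
    push_cast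
    ring
  have hnn : ∀ τ i, 0 < x.nn τ i := by
    intro τ i
    have := nn_ge x τ i
    omega
  refine ⟨?_, ?_, ?_, hsecond, ?_⟩
  · intro i
    unfold Prm.wt
    by_cases hr : x.resv P i
    · rw [if_pos hr]
      exact ⟨le_refl _, by positivity⟩
    · rw [if_neg hr]
      refine ⟨by positivity, ?_⟩
      have h1 : (x.h : ℝ) ≤ (x.nn (x.tp P) i : ℝ) + 2 := by exact_mod_cast nn_ge x (x.tp P) i
      have h2 : (0 : ℝ) < (x.nn (x.tp P) i : ℝ) := by exact_mod_cast hnn _ i
      have h3 : (0 : ℝ) < (x.h : ℝ) := by linarith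
      have h4 : 1 + 3 / (x.h : ℝ) = ((x.h : ℝ) + 3) / x.h := by
        field_simp
      rw [h4, div_le_div_iff₀ h2 h3]
      nlinarith
  · intro i hr
    unfold Prm.wt
    rw [if_neg hr]
    have h2 : (0 : ℝ) < (x.nn (x.tp P) i : ℝ) := by exact_mod_cast hnn _ i
    rw [le_div_iff₀ h2, one_mul]
    exact_mod_cast nn_le x (x.tp P) i
  · have h1 : 4 * x.h ^ 2 + 2 * x.h ≤ x.L := by
      rw [hx.L1]
      nlinarith [Nat.zero_le (x.h ^ 2)]
    rw [Finset.range_eq_Ico, ← Finset.sum_Ico_consecutive _ (Nat.zero_le (4 * x.h ^ 2)) (by omega),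
      ← Finset.sum_Ico_consecutive _ (show 4 * x.h ^ 2 ≤ 4 * x.h ^ 2 + 2 * x.h by omega) h1,
      ← Finset.range_eq_Ico, hfirst, hsecond, hthird]
    ring
  · intro τ i
    have e0 : (range (2 * x.h)).filter (fun Q => x.tp Q = τ) = TT x.h τ := rfl
    rw [e0]
    have e1 : ∀ Q ∈ TT x.h τ, x.wt Q i =
        if Q ∉ ZZ x.h i then (x.h : ℝ) / (TT x.h τ \ ZZ x.h i).card else 0 := by
      intro Q hQ
      have h1 : x.tp Q = τ := by
        simp only [TT, mem_filter] at hQ
        exact hQ.2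
      rw [wt_eq, h1]
      by_cases h2 : Q ∈ ZZ x.h i
      · rw [if_pos h2, if_neg (fun h3 => h3 h2)]
      · rw [if_neg h2, if_pos h2]
    rw [Finset.sum_congr rfl e1, ← Finset.sum_filter]
    have e2 : (TT x.h τ).filter (fun Q => Q ∉ ZZ x.h i) = TT x.h τ \ ZZ x.h i := by
      ext Q
      simp only [mem_filter, mem_sdiff]
    rw [e2, Finset.sum_const, nsmul_eq_mul, ← nn_eq]
    have h2 : (0 : ℝ) < (x.nn τ i : ℝ) := by exact_mod_cast hnn _ i
    field_simp

end Pool.Agent.H60.HW
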