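import Pool.Agent.H39.HW.SStm

/-!
Part sSHR of project HW, scheme side: the shares of the parts in a row are almost equal.
-/

set_option autoImplicit false
open Classical Finset

namespace Pool.Agent.H60.HW.Shr

open Pool.Agent.H39.HW Pool.Agent.H39.HW.Sc

/-- Abel summation -/
theorem abel (F U : ℕ → ℝ) (y : ℕ) (M C : ℝ) (hM : 0 ≤ M) (hC : 0 ≤ C) (Z : Finset ℕ)
    (hF : ∀ z, y ≤ z → |∑ β ∈ Finset.Ico y z, F β| ≤ M) : ∀ z, y ≤ z →
    (∀ β, y ≤ β → β < z → 0 ≤ U β ∧ U β ≤ C) →
    (∀ β, y < β → β < z → β ∉ Z → U β = U (β - 1)) →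
    |∑ β ∈ Finset.Ico y z, F β * U β| ≤ M * C * (1 + Z.card) := by
  have key : ∀ z, y < z → (∀ β, y ≤ β → β < z → 0 ≤ U β ∧ U β ≤ C) →
      (∀ β, y < β → β < z → β ∉ Z → U β = U (β - 1)) →
      |∑ β ∈ Finset.Ico y z, F β * U β - (∑ β ∈ Finset.Ico y z, F β) * U (z - 1)| ≤
        M * C * (Z.filter fun β => β < z).card := by
    intro z hz
    induction z, hz using Nat.le_induction with
    | base =>
      intro _ _
      have e1 : y.succ - 1 = y := by omega
      rw [Nat.Ico_succ_singleton, sum_singleton, sum_singleton, e1, sub_self, abs_zero]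
      positivity
    | succ z hz ih =>
      intro hU hZ
      have hyz : y ≤ z := by omega
      have ih' := ih (fun β h1 h2 => hU β h1 (by omega)) (fun β h1 h2 => hZ β h1 (by omega))
      rw [Finset.sum_Ico_succ_top hyz, Finset.sum_Ico_succ_top hyz, Nat.add_sub_cancel]
      set S := ∑ β ∈ Finset.Ico y z, F β with hS
      set T := ∑ β ∈ Finset.Ico y z, F β * U β with hT
      have e1 : T + F z * U z - (S + F z) * U z = (T - S * U (z - 1)) + S * (U (z - 1) - U z) := by
        ring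
      rw [e1]
      have hmono : (Z.filter fun β => β < z).card ≤ (Z.filter fun β => β < z + 1).card := by
        refine card_le_card fun β hβ => ?_
        rw [mem_filter] at hβ ⊢
        exact ⟨hβ.1, by omega⟩
      have hMC : 0 ≤ M * C := mul_nonneg hM hC
      by_cases hzZ : z ∈ Z
      · have h2 : |S * (U (z - 1) - U z)| ≤ M * C := by
          rw [abs_mul]
          refine mul_le_mul (hF z hyz) ?_ (abs_nonneg _) hM
          have h3 := hU (z - 1) (by omega) (by omega)
          have h4 := hU z hyz (by omega)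
          rw [abs_le]
          constructor <;> linarith
        have h3 : (Z.filter fun β => β < z).card + 1 ≤ (Z.filter fun β => β < z + 1).card := by
          have h4 : insert z (Z.filter fun β => β < z) ⊆ Z.filter fun β => β < z + 1 := by
            intro β hβ
            rw [mem_insert, mem_filter] at hβ
            rw [mem_filter]
            rcases hβ with rfl | hβ
            · exact ⟨hzZ, by omega⟩
            · exact ⟨hβ.1, by omega⟩
          have h5 := card_le_card h4
          rw [card_insert_of_notMem (by rw [mem_filter]; omega)] at h5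
          exact h5
        have h4 : ((Z.filter fun β => β < z).card : ℝ) + 1 ≤
            ((Z.filter fun β => β < z + 1).card : ℝ) := by exact_mod_cast h3
        have h5 := mul_le_mul_of_nonneg_left h4 hMC
        have h6 := abs_add_le (T - S * U (z - 1)) (S * (U (z - 1) - U z))
        linarith
      · by_cases hyz' : y < z
        · have h2 : U z = U (z - 1) := hZ z hyz' (by omega) hzZ
          rw [h2, sub_self, mul_zero, add_zero]
          refine ih'.trans (mul_le_mul_of_nonneg_left ?_ hMC)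
          exact_mod_cast hmono
        · omega
  intro z hyz hU hZ
  rcases Nat.lt_or_ge y z with h | h
  · have h1 := key z h hU hZ
    have h2 : |(∑ β ∈ Finset.Ico y z, F β) * U (z - 1)| ≤ M * C := by
      rw [abs_mul]
      refine mul_le_mul (hF z hyz) ?_ (abs_nonneg _) hM
      have h3 := hU (z - 1) (by omega) (by omega)
      rw [abs_of_nonneg h3.1]
      exact h3.2
    have h3 : ((Z.filter fun β => β < z).card : ℝ) ≤ (Z.card : ℝ) := by
      exact_mod_cast card_le_card (filter_subset _ _)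
    have h4 := mul_le_mul_of_nonneg_left h3 (mul_nonneg hM hC)
    have h5 := abs_add_le (∑ β ∈ Finset.Ico y z, F β * U β -
      (∑ β ∈ Finset.Ico y z, F β) * U (z - 1)) ((∑ β ∈ Finset.Ico y z, F β) * U (z - 1))
    rw [sub_add_cancel] at h5
    linarith
  · rw [Finset.Ico_eq_empty_of_le h, sum_empty, abs_zero]
    positivity

/-- upward closed predicates on an interval -/
theorem up_Ico (Q : ℕ → Prop) (y z : ℕ) (hQ : ∀ n, y ≤ n → Q n → Q (n + 1)) :
    ∃ i, y ≤ i ∧ (Finset.Ico y z).filter Q = Finset.Ico i z := by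
  by_cases h : ∃ n, y ≤ n ∧ Q n
  · refine ⟨Nat.find h, (Nat.find_spec h).1, ?_⟩
    have hup : ∀ m, Nat.find h ≤ m → Q m := by
      intro m hm
      induction m, hm using Nat.le_induction with
      | base => exact (Nat.find_spec h).2
      | succ m hm ih => exact hQ m ((Nat.find_spec h).1.trans hm) ih
    ext n
    rw [mem_filter, Finset.mem_Ico, Finset.mem_Ico]
    constructor
    · rintro ⟨⟨h1, h2⟩, h3⟩
      exact ⟨Nat.find_min' h ⟨h1, h3⟩, h2⟩
    · rintro ⟨h1, h2⟩
      exact ⟨⟨(Nat.find_spec h).1.trans h1, h2⟩, hup n h1⟩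
  · refine ⟨max y z, le_max_left _ _, ?_⟩
    rw [Finset.Ico_eq_empty_of_le (le_max_right _ _)]
    rw [Finset.filter_eq_empty_iff]
    intro n hn hQn
    exact h ⟨n, (Finset.mem_Ico.mp hn).1, hQn⟩

/-- downward closed predicates on an interval -/
theorem down_Ico (Q : ℕ → Prop) (y z : ℕ) (hQ : ∀ n, y ≤ n → n + 1 < z → Q (n + 1) → Q n) :
    ∃ i, i ≤ max y z ∧ (Finset.Ico y z).filter Q = Finset.Ico y i := by
  obtain ⟨i, hi, he⟩ := up_Ico (fun n => n < z → ¬ Q n) y z (by
    intro n hn h1 h2 h3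
    exact h1 (by omega) (hQ n hn h2 h3))
  refine ⟨min i (max y z), min_le_right _ _, ?_⟩
  ext n
  have h1 := Finset.ext_iff.mp he n
  simp only [mem_filter, Finset.mem_Ico] at h1
  rw [mem_filter, Finset.mem_Ico, Finset.mem_Ico]
  constructor
  · rintro ⟨⟨h2, h3⟩, h4⟩
    refine ⟨h2, ?_⟩
    rw [lt_min_iff]
    constructor
    · by_contra h5
      exact (h1.mpr ⟨by omega, h3⟩).2 h3 h4
    · exact lt_of_lt_of_le h3 (le_max_right _ _)
  · rintro ⟨h2, h3⟩
    rw [lt_min_iff] at h3
    obtain ⟨h3, h4⟩ := h3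
    have h5 : n < z := by
      rcases lt_max_iff.mp h4 with h5 | h5
      · omega
      · exact h5
    refine ⟨⟨h2, h5⟩, ?_⟩
    by_contra h6
    have := h1.mp ⟨⟨h2, h5⟩, fun _ => h6⟩
    omega

theorem sum_mod (L q : ℕ) (g : ℕ → ℝ) (k : ℕ) :
    ∑ j ∈ range (L * q), g ((k * (L * q) + j) % L) = q * ∑ i ∈ range L, g i := by
  have e0 : ∀ j, (k * (L * q) + j) % L = j % L := by
    intro j
    have : k * (L * q) + j = j + L * (k * q) := by ring
    rw [this, Nat.add_mul_mod_self_left]
  rw [Finset.sum_congr rfl fun j _ => by rw [e0 j]]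
  induction q with
  | zero => simp
  | succ q ih =>
    rw [Nat.mul_succ, Finset.sum_range_add, ih (by
      intro j
      have : k * (L * q) + j = j + L * (k * q) := by ring
      rw [this, Nat.add_mul_mod_self_left])]
    have h1 : ∑ x ∈ range L, g ((L * q + x) % L) = ∑ i ∈ range L, g i := by
      refine Finset.sum_congr rfl fun i hi => ?_
      rw [Nat.mul_add_mod, Nat.mod_eq_of_lt (mem_range.mp hi)]
    rw [h1]
    push_cast
    ring

theorem small_mu (x : Prm) (hx : Par x) : 20 * x.μ ≤ x.θ / 100 ∧ 0 ≤ x.μ ∧ 1 ≤ (x.L : ℝ) ∧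
    x.η ≤ 1 / 10 ^ 5 := by
  have h0 := hx.m0
  have h1 := hx.u1
  have h2 := hx.e1
  have h3 := hx.t0
  have h4 := hx.n1
  have hL : (1 : ℝ) ≤ (x.L : ℝ) := by
    have h5 : 1 ≤ x.h := by
      by_contra hcon
      have h6 : x.h = 0 := by omega
      have h7 := hx.h1
      rw [h6] at h7
      norm_num at h7
    have h6 := hx.L1
    have h7 : 1 ≤ x.L := by
      rw [h6]
      nlinarith
    exact_mod_cast h7
  have hL4 : (1 : ℝ) ≤ (x.L : ℝ) ^ 4 := one_le_pow₀ hL
  refine ⟨?_, h0.le, hL, by linarith⟩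
  have h5 : 10 ^ 9 * (1 : ℝ) * x.μ ≤ 10 ^ 9 * (x.L : ℝ) ^ 4 * x.μ :=
    mul_le_mul_of_nonneg_right (mul_le_mul_of_nonneg_left hL4 (by norm_num)) h0.le
  have h6 : x.ε * x.θ ≤ 1 / 10 * x.θ := mul_le_mul_of_nonneg_right h2 h3.le
  linarith

/-- the constant value of the normalised service on the classes of the middle -/
noncomputable def UU (x : Prm) (τ : Bool) (a β : ℕ) : ℝ :=
  2 * x.fr τ a β * ((x.v : ℝ) / x.D - if x.adj a β then 0 else x.μ) / x.Dt a

theorem t_SHR (hPER : S_PER) (hPAT : S_PAT) (hROW : S_ROW) (hCLD : S_CLD) (hWIN : S_WIN)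
    (hBLK : S_BLK) (hLM1 : S_LM1) (hTOT : S_TOT) : S_SHR := by
  intro x hx P hP a ha
  obtain ⟨hmu, hmu0, hL1, heta⟩ := small_mu x hx
  obtain ⟨-, -, hstm, -, -, hlnv, -, -⟩ := hBLK x hx
  obtain ⟨pw, pw1, pL, p2h, -⟩ := hPAT x hx P hP
  obtain ⟨hu0, hu5, husum, -, -, -⟩ := hROW x hx a ha (x.tp P)
  obtain ⟨hcls, -, hdadj, hdnadj, -⟩ := hCLD x hx a ha
  obtain ⟨hwin, hwin1, -, -⟩ := hWIN x hx a ha
  obtain ⟨hlam0, hlam1, -, -, -⟩ := hLM1 x hx a ha
  have htot := hTOT x hx a ha
  have hθ := hx.t0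
  have hμ := hx.m0
  set τ := x.tp P with hτ
  have hh1 : (1 : ℝ) ≤ x.h := by
    by_contra hcon
    have h6 : x.h = 0 := by
      by_contra h7
      apply hcon
      have : 1 ≤ x.h := by omega
      exact_mod_cast this
    have h7 := hx.h1
    rw [h6] at h7
    norm_num at h7
  have hh4 : (10000 : ℝ) ≤ x.h := by
    have h7 := hx.h1
    have h8 := hx.e1
    have h9 : x.ε * x.h ≤ 1 / 10 * x.h := mul_le_mul_of_nonneg_right h8 (by linarith)
    linarith
  -- bounds
  have hvD : x.μ ≤ (x.v : ℝ) / x.D ∧ (x.v : ℝ) / x.D ≤ 2 * x.μ := by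
    have h1 := abs_le.mp hx.s2
    have h2 := hx.th
    have h3 : 0 ≤ x.θ * x.μ := by positivity
    have h4 : x.η * x.θ * x.μ ≤ 1 * (x.θ * x.μ) := by
      rw [mul_assoc]
      exact mul_le_mul_of_nonneg_right (by linarith) h3
    have h5 : x.θ * x.μ ≤ 1 / 10 ^ 5 * x.μ := mul_le_mul_of_nonneg_right (by linarith) hμ.le
    constructor
    · linarith [h1.1]
    · linarith [h1.2]
  have hDt : 4 / 5 * x.θ ≤ x.Dt a := by
    have h1 := (abs_le.mp htot).1
    have h2 := hx.q3
    have h3 : x.θ / (60 * x.L) ≤ x.θ / 60 := by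
      refine div_le_div_of_nonneg_left hθ.le (by norm_num) (by linarith)
    linarith
  have hDt0 : 0 < x.Dt a := by linarith
  have hc : x.c ≤ 1 / 2 := by linarith [hx.c2, hx.e0]
  have hc0 : 0 ≤ x.c := by linarith [hx.c1, hx.e0]
  have hgA : ∀ β, 0 ≤ x.gA (x.lam a) a β ∧ x.gA (x.lam a) a β ≤ 1 := by
    intro β
    unfold Prm.gA
    split_ifs <;> constructor <;> linarith
  have hfr : ∀ β, 0 ≤ x.fr τ a β ∧ x.fr τ a β ≤ 1 := by
    intro β
    have := hgA β
    unfold Prm.fr
    split_ifs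
    · exact this
    · constructor <;> linarith
  have hU : ∀ β, 0 ≤ UU x τ a β ∧ UU x τ a β ≤ 5 * x.μ / x.θ := by
    intro β
    have h1 := hfr β
    have h2 : 0 ≤ (x.v : ℝ) / x.D - (if x.adj a β then 0 else x.μ) ∧
        (x.v : ℝ) / x.D - (if x.adj a β then 0 else x.μ) ≤ 2 * x.μ := by
      split_ifs <;> constructor <;> linarith
    unfold UU
    refine ⟨div_nonneg (mul_nonneg (mul_nonneg (by norm_num) h1.1) h2.1) hDt0.le, ?_⟩
    rw [div_le_div_iff₀ hDt0 hθ]
    have h3 : 2 * x.fr τ a β * ((x.v : ℝ) / x.D - (if x.adj a β then 0 else x.μ)) ≤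
        2 * 1 * (2 * x.μ) :=
      mul_le_mul (by linarith) h2.2 h2.1 (by norm_num)
    have h4 := mul_le_mul_of_nonneg_right h3 hθ.le
    have h5 := mul_le_mul_of_nonneg_left hDt (show 0 ≤ 5 * x.μ by positivity)
    linarith
  -- the function f
  let f : ℕ → ℝ := fun i => x.wt P i - 1
  have hf1 : ∀ i, |f i| ≤ 1 := by
    intro i
    have h1 := pw i
    have h2 : 3 / (x.h : ℝ) ≤ 1 := by
      rw [div_le_one (by linarith)]
      linarith
    rw [abs_le]
    constructor
    · show -1 ≤ x.wt P i - 1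
      linarith [h1.1]
    · show x.wt P i - 1 ≤ 1
      linarith [h1.2]
  have hfL : ∑ i ∈ range x.L, f i = 0 := by
    show ∑ i ∈ range x.L, (x.wt P i - 1) = 0
    rw [Finset.sum_sub_distrib, pL, Finset.sum_const, card_range, nsmul_eq_mul, mul_one, sub_self]
  -- step 0
  have hLnat : 1 ≤ x.L := by exact_mod_cast hL1
  have hmidB : x.mid ⊆ range x.B := by
    intro β hβ
    unfold Prm.mid at hβ
    rw [Finset.mem_Ico] at hβ
    rw [mem_range]
    have h1 : x.b1 ≤ x.B := by
      unfold Prm.b1 Prm.B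
      omega
    omega
  have step0 : x.rs P a - 1 = ∑ β ∈ x.mid, f ((β - x.b0) % x.L) * x.u τ a β := by
    have h1 : x.rs P a - 1 = ∑ β ∈ range x.B, (x.wb P β - 1) * x.u τ a β := by
      have h2 : ∑ β ∈ range x.B, (x.wb P β - 1) * x.u τ a β =
          ∑ β ∈ range x.B, x.wb P β * x.u τ a β - ∑ β ∈ range x.B, x.u τ a β := by
        rw [← Finset.sum_sub_distrib]
        exact Finset.sum_congr rfl fun β _ => by ring
      rw [h2, husum]
      rfl
    rw [h1]
    symm
    refine Finset.sum_subset_zero_on_sdiff hmidB ?_ ?_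
    · intro β hβ
      rw [mem_sdiff] at hβ
      unfold Prm.wb
      rw [if_neg hβ.2, sub_self, zero_mul]
    · intro β hβ
      unfold Prm.wb
      rw [if_pos hβ]
  -- the value of u
  let res : ℕ → Prop := fun β => (β - x.b0) / x.W = x.win a ∧ 4 * x.h ^ 2 ≤ (β - x.b0) % x.L ∧
    (β - x.b0) % x.L < 4 * x.h ^ 2 + 2 * x.h
  have hmid : ∀ β, β ∈ x.mid ↔ x.b0 ≤ β ∧ β < x.b1 := by
    intro β
    unfold Prm.mid
    rw [Finset.mem_Ico]
  have hcls' : ∀ β ∈ x.mid, (β ∈ x.cls a ↔ Av x.st x.p a β ∧ β ≠ sm x.B a a ∧ ¬ res β) := by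
    intro β hβ
    rw [hcls β]
    have h1 := mem_range.mp (hmidB hβ)
    constructor
    · rintro ⟨-, h2, h3, h4⟩
      exact ⟨h2, h3, fun h5 => h4 ⟨hβ, h5⟩⟩
    · rintro ⟨h2, h3, h4⟩
      exact ⟨h1, h2, h3, fun h5 => h4 h5.2⟩
  have huU : ∀ β ∈ x.mid, x.u τ a β = if β ∈ x.cls a then UU x τ a β else 0 := by
    intro β hβ
    unfold Prm.u
    by_cases h1 : β ∈ x.cls a
    · rw [if_pos h1, if_pos h1]
      unfold UU
      have h2 := (hmid β).mp hβ
      have h3 := hlnv β h2.1 h2.2
      by_cases h4 : x.adj a β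
      · rw [hdadj β h1 h4, if_pos h4, h3, sub_zero]
      · rw [hdnadj β h1 h4, if_neg h4, h3]
    · rw [if_neg h1, if_neg h1]
  have hpt : ∀ β ∈ x.mid, f ((β - x.b0) % x.L) * x.u τ a β =
      (if Av x.st x.p a β then f ((β - x.b0) % x.L) * UU x τ a β else 0) -
      (if res β then f ((β - x.b0) % x.L) * UU x τ a β else 0) -
      (if Av x.st x.p a β ∧ ¬ res β ∧ β = sm x.B a a then
        f ((β - x.b0) % x.L) * UU x τ a β else 0) := by
    intro β hβ
    rw [huU β hβ]
    have h1 := hcls' β hβ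
    by_cases h2 : Av x.st x.p a β
    · by_cases h3 : res β
      · have h4 : ¬ β ∈ x.cls a := fun h5 => ((h1.mp h5).2.2) h3
        simp [h2, h3, h4]
      · by_cases h5 : β = sm x.B a a
        · have h4 : ¬ β ∈ x.cls a := fun h6 => ((h1.mp h6).2.1) h5
          rw [if_neg h4, if_pos h2, if_neg h3, if_pos ⟨h2, h3, h5⟩]
          ring
        · have h4 : β ∈ x.cls a := h1.mpr ⟨h2, h5, h3⟩
          rw [if_pos h4, if_pos h2, if_neg h3, if_neg (fun h6 => h5 h6.2.2)]
          ring
    · have h3 : ¬ res β := fun h4 => h2 (hwin β hβ h4.1).1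
      have h4 : ¬ β ∈ x.cls a := fun h5 => h2 (h1.mp h5).1
      rw [if_neg h4, if_neg h2, if_neg h3, if_neg (fun h6 => h2 h6.1)]
      ring
  rw [step0, Finset.sum_congr rfl hpt, Finset.sum_sub_distrib, Finset.sum_sub_distrib]
  -- second sum
  have hS2 : ∑ β ∈ x.mid, (if res β then f ((β - x.b0) % x.L) * UU x τ a β else 0) = 0 := by
    let g : ℕ → ℝ := fun i => if 4 * x.h ^ 2 ≤ i ∧ i < 4 * x.h ^ 2 + 2 * x.h then f i else 0
    have hgsum : ∑ i ∈ range x.L, g i = 0 := by
      have h1 : Finset.Ico (4 * x.h ^ 2) (4 * x.h ^ 2 + 2 * x.h) ⊆ range x.L := by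
        intro i hi
        rw [Finset.mem_Ico] at hi
        rw [mem_range, hx.L1]
        nlinarith [hi.2, Nat.zero_le (x.h ^ 2)]
      rw [← Finset.sum_subset h1]
      · have h2 : ∀ i ∈ Finset.Ico (4 * x.h ^ 2) (4 * x.h ^ 2 + 2 * x.h), g i = x.wt P i - 1 := by
          intro i hi
          show (if 4 * x.h ^ 2 ≤ i ∧ i < 4 * x.h ^ 2 + 2 * x.h then f i else 0) = x.wt P i - 1
          rw [if_pos (Finset.mem_Ico.mp hi)]
        rw [Finset.sum_congr rfl h2, Finset.sum_sub_distrib, p2h, Finset.sum_const, Nat.card_Ico,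
          nsmul_eq_mul, mul_one, Nat.add_sub_cancel_left]
        push_cast
        ring
      · intro i _ hi
        show (if 4 * x.h ^ 2 ≤ i ∧ i < 4 * x.h ^ 2 + 2 * x.h then f i else 0) = 0
        rw [if_neg (fun h2 => hi (Finset.mem_Ico.mpr h2))]
    have hWpos : 0 < x.W := by
      unfold Prm.W
      exact Nat.mul_pos hLnat hx.q1
    set U0 : ℝ := 2 * (if τ then x.lam a else 1 - x.lam a) * ((x.v : ℝ) / x.D) / x.Dt a with hU0
    have h1 : ∀ β ∈ x.mid, (β - x.b0) / x.W = x.win a → UU x τ a β = U0 := by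
      intro β hβ hw
      obtain ⟨-, h2, h3⟩ := hwin β hβ hw
      have h4 := (hmid β).mp hβ
      have h5 : x.gA (x.lam a) a β = x.lam a := by
        unfold Prm.gA
        rw [if_neg (by omega), if_neg (by omega), if_pos h2, if_pos h3]
      unfold UU Prm.fr
      rw [h5, if_pos h2, sub_zero, hU0]
    have h2 : ∑ β ∈ x.mid, (if res β then f ((β - x.b0) % x.L) * UU x τ a β else 0) =
        ∑ β ∈ Finset.Ico (x.b0 + x.win a * x.W) (x.b0 + (x.win a + 1) * x.W),
          g ((β - x.b0) % x.L) * U0 := by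
      have h3 : Finset.Ico (x.b0 + x.win a * x.W) (x.b0 + (x.win a + 1) * x.W) ⊆ x.mid := by
        intro β hβ
        rw [Finset.mem_Ico] at hβ
        rw [hmid]
        omega
      have hdiv : ∀ β, x.b0 ≤ β → ((β - x.b0) / x.W = x.win a ↔
          β ∈ Finset.Ico (x.b0 + x.win a * x.W) (x.b0 + (x.win a + 1) * x.W)) := by
        intro β hβ
        rw [Finset.mem_Ico, Nat.div_eq_iff hWpos]
        constructor
        · rintro ⟨h4, h5⟩
          rw [add_mul, one_mul]
          omega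
        · rintro ⟨h4, h5⟩
          rw [add_mul, one_mul] at h5
          omega
      symm
      refine Finset.sum_subset_zero_on_sdiff h3 ?_ ?_
      · intro β hβ
        rw [mem_sdiff] at hβ
        have h4 : ¬ res β := by
          intro h5
          exact hβ.2 ((hdiv β ((hmid β).mp hβ.1).1).mp h5.1)
        rw [if_neg h4]
      · intro β hβ
        have h4 := h3 hβ
        have h5 := (hdiv β ((hmid β).mp h4).1).mpr hβ
        rw [h1 β h4 h5]
        show (if 4 * x.h ^ 2 ≤ (β - x.b0) % x.L ∧ (β - x.b0) % x.L < 4 * x.h ^ 2 + 2 * x.h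
          then f ((β - x.b0) % x.L) else 0) * U0 = _
        by_cases h6 : 4 * x.h ^ 2 ≤ (β - x.b0) % x.L ∧ (β - x.b0) % x.L < 4 * x.h ^ 2 + 2 * x.h
        · rw [if_pos h6, if_pos ⟨h5, h6⟩]
        · rw [if_neg h6, if_neg (fun h7 => h6 h7.2), zero_mul]
    rw [h2, ← Finset.sum_mul, Finset.sum_Ico_eq_sum_range]
    have h3 : x.b0 + (x.win a + 1) * x.W - (x.b0 + x.win a * x.W) = x.L * x.q := by
      have : (x.win a + 1) * x.W = x.win a * x.W + x.W := by ring
      rw [this]
      unfold Prm.W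
      omega
    have h4 : ∀ j, g ((x.b0 + x.win a * x.W + j - x.b0) % x.L) =
        g ((x.win a * (x.L * x.q) + j) % x.L) := by
      intro j
      have : x.b0 + x.win a * x.W + j - x.b0 = x.win a * (x.L * x.q) + j := by
        unfold Prm.W
        omega
      rw [this]
    rw [h3, Finset.sum_congr rfl fun j _ => h4 j, sum_mod x.L x.q g (x.win a), hgsum, mul_zero,
      zero_mul]
  -- third sum
  have hS3 : |∑ β ∈ x.mid, (if Av x.st x.p a β ∧ ¬ res β ∧ β = sm x.B a a then
        f ((β - x.b0) % x.L) * UU x τ a β else 0)| ≤ 5 * x.μ / x.θ := by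
    have h5 : 0 ≤ 5 * x.μ / x.θ := by positivity
    by_cases h1 : sm x.B a a ∈ x.mid
    · rw [Finset.sum_eq_single_of_mem _ h1 (fun β _ hβ => by
        rw [if_neg (fun h2 => hβ h2.2.2)])]
      split_ifs
      · rw [abs_mul]
        have h2 := hU (sm x.B a a)
        rw [abs_of_nonneg h2.1]
        calc _ ≤ 1 * (5 * x.μ / x.θ) := mul_le_mul (hf1 _) h2.2 h2.1 zero_le_one
          _ = _ := one_mul _
      · rw [abs_zero]
        exact h5
    · rw [Finset.sum_eq_zero (fun β hβ => by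
        rw [if_neg (fun h2 : Av x.st x.p a β ∧ ¬ res β ∧ β = sm x.B a a => h1 (h2.2.2 ▸ hβ))]),
        abs_zero]
      exact h5
  -- first sum
  have hstmono : Monotone x.st := monotone_nat_of_le_succ hstm
  have hp2 : 2 ≤ x.p := by
    have := hx.pK'
    omega
  have hS1 : |∑ β ∈ x.mid, (if Av x.st x.p a β then f ((β - x.b0) % x.L) * UU x τ a β else 0)| ≤
      100 * x.L * x.μ / x.θ := by
    have hM : (0 : ℝ) ≤ 2 * 1 * x.L := by positivity
    have hC : (0 : ℝ) ≤ 5 * x.μ / x.θ := by positivity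
    have hper : ∀ y z : ℕ, x.b0 ≤ y → |∑ β ∈ Finset.Ico y z, f ((β - x.b0) % x.L)| ≤ 2 * 1 * x.L :=
      fun y z hy => hPER x.L x.b0 1 f hLnat zero_le_one hfL hf1 y z hy
    -- the value is locally constant
    have hconst : ∀ β, x.b0 < β → β < x.b1 → (a ≤ β - 1 ∨ β < a) →
        β ∉ ({a - x.K, a + x.K + 1, x.b1 - 2 * x.K, x.b0 + 2 * x.K} : Finset ℕ) →
        UU x τ a β = UU x τ a (β - 1) := by
      intro β h1 h2 h3 h4
      simp only [mem_insert, mem_singleton, not_or] at h4
      obtain ⟨h4, h5, h6, h7⟩ := h4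
      have g1 : x.adj a (β - 1) ↔ x.adj a β := by
        unfold Prm.adj
        omega
      have g2 : (β - 1 + 2 * x.K < x.b1) ↔ (β + 2 * x.K < x.b1) := by omega
      have g3 : (x.b0 + 2 * x.K ≤ β - 1) ↔ (x.b0 + 2 * x.K ≤ β) := by omega
      have g4 : (β - 1 < a) ↔ (β < a) := by omega
      have g5 : ¬ β < x.b0 := by omega
      have g6 : ¬ β - 1 < x.b0 := by omega
      have g7 : ¬ x.b1 ≤ β := by omega
      have g8 : ¬ x.b1 ≤ β - 1 := by omega
      have g9 : x.gA (x.lam a) a β = x.gA (x.lam a) a (β - 1) := by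
        unfold Prm.gA
        simp only [g1, g2, g3, g4, g5, g6, g7, g8]
      unfold UU Prm.fr
      rw [g9]
      simp only [g1]
    have hZ : (({a - x.K, a + x.K + 1, x.b1 - 2 * x.K, x.b0 + 2 * x.K} : Finset ℕ).card : ℝ) ≤ 4 := by
      have := Finset.card_le_four (a := a - x.K) (b := a + x.K + 1) (c := x.b1 - 2 * x.K)
        (d := x.b0 + 2 * x.K)
      exact_mod_cast this
    have hpart : ∀ y z : ℕ, x.b0 ≤ y → z ≤ x.b1 → ((∀ β, y ≤ β → β < z → a ≤ β) ∨
        (∀ β, y ≤ β → β < z → β < a)) →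
        |∑ β ∈ Finset.Ico y z, f ((β - x.b0) % x.L) * UU x τ a β| ≤ 50 * x.L * x.μ / x.θ := by
      intro y z hy hz hside
      rcases le_or_gt y z with hyz | hyz
      · have h1 := abel (fun β => f ((β - x.b0) % x.L)) (UU x τ a) y (2 * 1 * x.L) (5 * x.μ / x.θ)
          hM hC ({a - x.K, a + x.K + 1, x.b1 - 2 * x.K, x.b0 + 2 * x.K} : Finset ℕ)
          (fun z _ => hper y z hy) z hyz (fun β _ _ => hU β) (by
            intro β h1 h2 h3
            refine hconst β (by omega) (by omega) ?_ h3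
            rcases hside with h4 | h4
            · left
              exact h4 (β - 1) (by omega) (by omega)
            · right
              exact h4 β (by omega) (by omega))
        refine h1.trans ?_
        have h2 : (2 * 1 * x.L * (5 * x.μ / x.θ)) * (1 + 4) = 50 * x.L * x.μ / x.θ := by ring
        rw [← h2]
        exact mul_le_mul_of_nonneg_left (by linarith) (mul_nonneg hM hC)
      · rw [Finset.Ico_eq_empty_of_le hyz.le, sum_empty, abs_zero]
        positivity
    rw [← Finset.sum_filter]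
    -- split
    have hsplit : x.mid.filter (fun β => Av x.st x.p a β) =
        (Finset.Ico x.b0 (min a x.b1)).filter (fun β => Av x.st x.p a β) ∪
        (Finset.Ico (max a x.b0) x.b1).filter (fun β => Av x.st x.p a β) := by
      ext β
      simp only [mem_filter, hmid, mem_union, Finset.mem_Ico, lt_min_iff, max_le_iff]
      constructor
      · rintro ⟨⟨h1, h2⟩, h3⟩
        rcases Nat.lt_or_ge β a with h4 | h4
        · exact Or.inl ⟨⟨h1, h4, h2⟩, h3⟩
        · exact Or.inr ⟨⟨⟨h4, h1⟩, h2⟩, h3⟩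
      · rintro (⟨⟨h1, h4, h2⟩, h3⟩ | ⟨⟨⟨h4, h1⟩, h2⟩, h3⟩)
        · exact ⟨⟨h1, h2⟩, h3⟩
        · exact ⟨⟨h1, h2⟩, h3⟩
    have hdisj : Disjoint ((Finset.Ico x.b0 (min a x.b1)).filter (fun β => Av x.st x.p a β))
        ((Finset.Ico (max a x.b0) x.b1).filter (fun β => Av x.st x.p a β)) := by
      rw [Finset.disjoint_left]
      intro β h1 h2
      simp only [mem_filter, Finset.mem_Ico, lt_min_iff, max_le_iff] at h1 h2
      omega
    rw [hsplit, Finset.sum_union hdisj]
    obtain ⟨i1, hi1, hi1'⟩ := down_Ico (fun β => Av x.st x.p a β) x.b0 (min a x.b1) (by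
      intro n _ hn1 hAv
      rw [lt_min_iff] at hn1
      have h1 := hstmono (show n + 1 ≤ a by omega)
      have h2 := hstmono (show n + 1 + 1 ≤ a + 1 by omega)
      have h3 := hstmono (show n + 1 ≤ n + 1 + 1 by omega)
      have h4 := hstmono (show a ≤ a + 1 by omega)
      rcases hAv with hAv | hAv
      · omega
      · right
        omega)
    obtain ⟨i2, hi2, hi2'⟩ := up_Ico (fun β => Av x.st x.p a β) (max a x.b0) x.b1 (by
      intro n hn hAv
      have hn' : a ≤ n := (le_max_left _ _).trans hn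
      have h1 := hstmono (show a ≤ n by omega)
      have h3 := hstmono (show n ≤ n + 1 by omega)
      rcases hAv with hAv | hAv
      · left
        omega
      · omega)
    rw [hi1', hi2']
    have hL' : i1 ≤ x.b0 ∨ i1 ≤ min a x.b1 := le_max_iff.mp hi1
    have b1 := hpart x.b0 (min i1 x.b1) (le_refl _) (min_le_right _ _) (Or.inr (by
      intro β h1 h2
      rw [lt_min_iff] at h2
      rcases hL' with h3 | h3
      · omega
      · have := le_min_iff.mp h3
        omega))
    have e1 : Finset.Ico x.b0 (min i1 x.b1) = Finset.Ico x.b0 i1 := by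
      rcases hL' with h3 | h3
      · rw [Finset.Ico_eq_empty_of_le h3, Finset.Ico_eq_empty_of_le ((min_le_left _ _).trans h3)]
      · rw [min_eq_left ((le_min_iff.mp h3).2)]
    rw [e1] at b1
    have b2 := hpart i2 x.b1 ((le_max_right _ _).trans hi2) (le_refl _) (Or.inl (by
      intro β h1 _
      exact ((le_max_left _ _).trans hi2).trans h1))
    refine (abs_add_le _ _).trans ?_
    have e2 : 100 * x.L * x.μ / x.θ = 50 * x.L * x.μ / x.θ + 50 * x.L * x.μ / x.θ := by ring
    rw [e2]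
    exact add_le_add b1 b2
  rw [hS2, sub_zero]
  refine (abs_sub _ _).trans ?_
  have h1 : 5 * x.μ / x.θ ≤ 5 * x.L * x.μ / x.θ := by
    refine div_le_div_of_nonneg_right ?_ hθ.le
    nlinarith
  have h2 : 200 * x.L * x.μ / x.θ = 100 * x.L * x.μ / x.θ + 5 * x.L * x.μ / x.θ +
      95 * x.L * x.μ / x.θ := by ring
  have h3 : 0 ≤ 95 * x.L * x.μ / x.θ := by positivity
  rw [h2]
  linarith

end Pool.Agent.H60.HW.Shr
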